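import Pool.Agent.Lib.MP_b1a3a4_al.MVS.Interfaces

/-!
# Project MVS: module HEMI (section 5 of the paper), reduction of the hemisphere theorem to HEMIALG
-/

set_option linter.all false

namespace Pool.Agent.Lib.MP_b1a3a4_al.MVS.H32

open Finsupp

/-! ## Values `v_λ` on `R[τ^{±1}]` -/

section vg

variable {k G : Type} [CommRing k] [Group G] {χ : Chr G} (N : NovRing k G χ) {lam : ℝ}

lemma V_sum {ι : Type} (s : Finset ι) (f : ι → N.R) (a : ℝ) (h : ∀ i ∈ s, N.V a (f i)) :
    N.V a (∑ i ∈ s, f i) := by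
  classical
  induction s using Finset.induction_on with
  | empty => simpa using N.V_zero a
  | insert i s hi ih =>
    rw [Finset.sum_insert hi]
    exact N.V_add _ _ _ (h i (Finset.mem_insert_self _ _))
      (ih fun j hj => h j (Finset.mem_insert_of_mem hj))

lemma VG_zero (a : ℝ) : VG N lam a 0 := fun i => by
  have : (0 : MonoidAlgebra N.R (Multiplicative ℤ)).coeff (Multiplicative.ofAdd i) = 0 := by simp
  rw [this]
  exact N.V_zero _

lemma VG_add {a : ℝ} {γ γ' : MonoidAlgebra N.R (Multiplicative ℤ)} (h : VG N lam a γ)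
    (h' : VG N lam a γ') : VG N lam a (γ + γ') := fun i => by
  have := N.V_add _ _ _ (h i) (h' i)
  have e : (γ + γ').coeff (Multiplicative.ofAdd i) =
    γ.coeff (Multiplicative.ofAdd i) + γ'.coeff (Multiplicative.ofAdd i) := by simp
  rw [e]
  exact this

lemma VG_sum {ι : Type} (s : Finset ι) (f : ι → MonoidAlgebra N.R (Multiplicative ℤ)) (a : ℝ)
    (h : ∀ i ∈ s, VG N lam a (f i)) : VG N lam a (∑ i ∈ s, f i) := by
  classical
  induction s using Finset.induction_on with
  | empty => simpa using VG_zero N a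
  | insert i s hi ih =>
    rw [Finset.sum_insert hi]
    exact VG_add N (h i (Finset.mem_insert_self _ _))
      (ih fun j hj => h j (Finset.mem_insert_of_mem hj))

lemma VG_mono {a b : ℝ} (hab : a ≤ b) {γ : MonoidAlgebra N.R (Multiplicative ℤ)}
    (h : VG N lam b γ) : VG N lam a γ := fun i => N.V_mono _ _ _ (by linarith) (h i)

lemma VG_mul {a b : ℝ} {γ γ' : MonoidAlgebra N.R (Multiplicative ℤ)} (h : VG N lam a γ)
    (h' : VG N lam b γ') : VG N lam (a + b) (γ * γ') := fun i => by
  classical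
  rw [MonoidAlgebra.coeff_mul]
  unfold Finsupp.sum
  refine V_sum N _ _ _ fun m₁ _ => V_sum N _ _ _ fun m₂ _ => ?_
  beta_reduce
  split_ifs with hm
  · have h1 := h (Multiplicative.toAdd m₁)
    have h2 := h' (Multiplicative.toAdd m₂)
    rw [ofAdd_toAdd] at h1 h2
    have h3 := N.V_mul _ _ _ _ h1 h2
    have hi : i = Multiplicative.toAdd m₁ + Multiplicative.toAdd m₂ := by
      rw [← toAdd_mul, hm, toAdd_ofAdd]
    refine N.V_mono _ _ _ (le_of_eq ?_) h3
    rw [hi]
    push_cast
    ring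
  · exact N.V_zero _

lemma VG_single {a : ℝ} (m : Multiplicative ℤ) (r : N.R)
    (h : N.V (a - lam * (Multiplicative.toAdd m : ℤ)) r) :
    VG N lam a (MonoidAlgebra.single m r) := fun i => by
  classical
  rw [MonoidAlgebra.coeff_single_apply]
  split_ifs with hm
  · rw [hm] at h
    simpa using h
  · exact N.V_zero _

lemma VG_bdd (γ : MonoidAlgebra N.R (Multiplicative ℤ)) : ∃ a, VG N lam a γ := by
  induction γ using MonoidAlgebra.induction_linear with
  | zero => exact ⟨0, VG_zero N 0⟩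
  | add f g hf hg =>
    obtain ⟨a, ha⟩ := hf
    obtain ⟨b, hb⟩ := hg
    exact ⟨min a b, VG_add N (VG_mono N (min_le_left _ _) ha) (VG_mono N (min_le_right _ _) hb)⟩
  | single m r =>
    obtain ⟨a, ha⟩ := N.V_bdd r
    refine ⟨a + lam * (Multiplicative.toAdd m : ℤ), VG_single N m r ?_⟩
    simpa using ha

/-- all coordinates have value `≥ a` -/
def VV (lam a : ℝ) {X : Type} (v : X →₀ MonoidAlgebra N.R (Multiplicative ℤ)) : Prop :=
  ∀ x, VG N lam a (v x)

lemma VV_bdd {X : Type} (v : X →₀ MonoidAlgebra N.R (Multiplicative ℤ)) :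
    ∃ a, VV N lam a v := by
  induction v using Finsupp.induction_linear with
  | zero => exact ⟨0, fun x => by simpa using VG_zero N 0⟩
  | add f g hf hg =>
    obtain ⟨a, ha⟩ := hf
    obtain ⟨b, hb⟩ := hg
    exact ⟨min a b, fun x => by
      rw [Finsupp.add_apply]
      exact VG_add N (VG_mono N (min_le_left _ _) (ha x)) (VG_mono N (min_le_right _ _) (hb x))⟩
  | single x r =>
    classical
    obtain ⟨a, ha⟩ := VG_bdd N (lam := lam) r
    refine ⟨a, fun x' => ?_⟩
    rw [Finsupp.single_apply]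
    split_ifs
    · exact ha
    · exact VG_zero N _

end vg

section delta

variable {k G : Type} [CommRing k] [Group G] {χ : Chr G} (N : NovRing k G χ) {lam : ℝ}
  (ψ : G →* Multiplicative ℤ)

lemma VG_delta (a : ℝ) (u : MonoidAlgebra k G)
    (h : ∀ g ∈ u.coeff.support, a ≤ val (χ + lam • intChr ψ) g) :
    VG N lam a (delta N.ι ψ u) := by
  classical
  have hu : u = ∑ g ∈ u.coeff.support, MonoidAlgebra.single g (u.coeff g) := by
    conv_lhs => rw [← MonoidAlgebra.sum_coeff_single u]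
    rfl
  rw [hu, map_sum]
  refine VG_sum N _ _ _ fun g hg => ?_
  rw [delta_single]
  refine VG_single N _ _ (N.V_mono _ _ _ ?_ (N.V_ι g _))
  have := h g hg
  rw [val_add, val_smul, val_intChr] at this
  linarith

/-- a finite positive matrix has a uniform lower bound -/
lemma exists_delta {X : Type} [Finite X] (χ' : Chr G)
    (v : X → (X →₀ MonoidAlgebra k G)) (h : ∀ x, PosV χ' (v x)) :
    ∃ δ : ℝ, 0 < δ ∧ ∀ x y, ∀ g ∈ (v x y).coeff.support, δ ≤ val χ' g := by
  classical
  haveI := Fintype.ofFinite X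
  let s : Finset G := Finset.univ.biUnion fun x : X => Finset.univ.biUnion fun y : X =>
    (v x y).coeff.support
  have hs : ∀ g ∈ s, 0 < val χ' g := by
    intro g hg
    simp only [s, Finset.mem_biUnion, Finset.mem_univ, true_and] at hg
    obtain ⟨x, y, hg⟩ := hg
    exact h x y g hg
  have key : ∀ s : Finset G, (∀ g ∈ s, 0 < val χ' g) → ∃ δ : ℝ, 0 < δ ∧ ∀ g ∈ s, δ ≤ val χ' g := by
    intro s
    induction s using Finset.induction_on with
    | empty => intro _; exact ⟨1, one_pos, by simp⟩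
    | insert g s hgs ih =>
      intro h
      obtain ⟨δ, hδ, hd⟩ := ih fun g hg => h g (Finset.mem_insert_of_mem hg)
      refine ⟨min δ (val χ' g), lt_min hδ (h g (Finset.mem_insert_self _ _)), fun g' hg' => ?_⟩
      rcases Finset.mem_insert.1 hg' with rfl | hg'
      · exact min_le_right _ _
      · exact (min_le_left _ _).trans (hd g' hg')
  obtain ⟨δ, hδ, hd⟩ := key s hs
  refine ⟨δ, hδ, fun x y g hg => hd g ?_⟩
  simp only [s, Finset.mem_biUnion, Finset.mem_univ, true_and]
  exact ⟨x, y, hg⟩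

/-- a positive matrix raises the value -/
lemma VV_bc {X : Type} [Finite X] (A : (X →₀ MonoidAlgebra k G) →ₗ[MonoidAlgebra k G]
      (X →₀ MonoidAlgebra k G)) {δ : ℝ}
    (hA : ∀ x y, ∀ g ∈ (A (single x 1) y).coeff.support, δ ≤ val (χ + lam • intChr ψ) g)
    {a : ℝ} {v : X →₀ MonoidAlgebra N.R (Multiplicative ℤ)} (hv : VV N lam a v) :
    VV N lam (a + δ) (bc (delta N.ι ψ) A v) := by
  classical
  haveI := Fintype.ofFinite X
  intro y
  have hv' : v = ∑ x, single x (v x) := (Finsupp.univ_sum_single v).symm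
  have e : bc (delta N.ι ψ) A v y = ∑ x, v x * delta N.ι ψ (A (single x 1) y) := by
    conv_lhs => rw [hv', map_sum]
    rw [Finsupp.finset_sum_apply]
    refine Finset.sum_congr rfl fun x _ => ?_
    rw [bc_single, Finsupp.smul_apply, mp_apply, smul_eq_mul]
  rw [e]
  exact VG_sum N _ _ _ fun x _ => VG_mul N (hv x) (VG_delta N ψ δ _ (hA x y))

lemma VV_iter {X : Type} [Finite X] (A : (X →₀ MonoidAlgebra k G) →ₗ[MonoidAlgebra k G]
      (X →₀ MonoidAlgebra k G)) {δ : ℝ}
    (hA : ∀ x y, ∀ g ∈ (A (single x 1) y).coeff.support, δ ≤ val (χ + lam • intChr ψ) g)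
    {a : ℝ} {v : X →₀ MonoidAlgebra N.R (Multiplicative ℤ)} (hv : VV N lam a v) (n : ℕ) :
    VV N lam (a + n * δ) ((bc (delta N.ι ψ) A)^[n] v) := by
  induction n with
  | zero => simpa using hv
  | succ n ih =>
    rw [Function.iterate_succ_apply']
    have := VV_bc N ψ A hA ih
    have e : a + ((n + 1 : ℕ) : ℝ) * δ = a + n * δ + δ := by push_cast; ring
    rw [e]
    exact this

end delta

/-! ## Cycles, contractions -/

section cyc

variable {R : Type} [Ring R] {X : ℕ → Type}

/-- the module of cycles -/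
noncomputable def Zs (d : Dif R X) : ∀ q : ℕ, Submodule R (X q →₀ R)
  | 0 => ⊤
  | q + 1 => LinearMap.ker (d q)

lemma mem_Zs (d : Dif R X) (q : ℕ) (z : X q →₀ R) : z ∈ Zs d q ↔ IsCyc d q z := by
  cases q with
  | zero => simp [Zs, IsCyc]
  | succ q => simp [Zs, IsCyc]

/-- the projection onto the cycles given by a contraction -/
noncomputable def piC (d : Dif R X) (s : ∀ q : ℕ, (X q →₀ R) →ₗ[R] (X (q + 1) →₀ R)) :
    ∀ q : ℕ, (X q →₀ R) →ₗ[R] (X q →₀ R)
  | 0 => LinearMap.id
  | q + 1 => LinearMap.id - s q ∘ₗ d q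

lemma piC_of_cyc (d : Dif R X) (s : ∀ q : ℕ, (X q →₀ R) →ₗ[R] (X (q + 1) →₀ R)) (q : ℕ)
    (z : X q →₀ R) (hz : IsCyc d q z) : piC d s q z = z := by
  cases q with
  | zero => rfl
  | succ q =>
    have : d q z = 0 := hz
    simp [piC, this]

lemma piC_cyc {d : Dif R X} (hd : IsCx d) {s : ∀ q : ℕ, (X q →₀ R) →ₗ[R] (X (q + 1) →₀ R)}
    {q : ℕ} (hs : Contr d q s) (z : X q →₀ R) : IsCyc d q (piC d s q z) := by
  cases q with
  | zero => trivial
  | succ q =>
    show d q (piC d s (q + 1) z) = 0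
    simp only [piC, LinearMap.sub_apply, LinearMap.id_apply, LinearMap.comp_apply, map_sub]
    cases q with
    | zero =>
      rw [hs.1 (by omega), sub_self]
    | succ p =>
      have := hs.2 p (by omega) (d (p + 1) z)
      rw [hd p z, map_zero, add_zero] at this
      rw [this, sub_self]

/-- the maps `φ_q` of a push map -/
noncomputable def phiP (d : Dif R X) (s : ∀ q : ℕ, (X q →₀ R) →ₗ[R] (X (q + 1) →₀ R)) :
    ∀ q : ℕ, (X q →₀ R) →ₗ[R] (X q →₀ R)
  | 0 => LinearMap.id - d 0 ∘ₗ s 0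
  | q + 1 => LinearMap.id - d (q + 1) ∘ₗ s (q + 1) - s q ∘ₗ d q

lemma phiP_cyc {d : Dif R X} (hd : IsCx d) (s : ∀ q : ℕ, (X q →₀ R) →ₗ[R] (X (q + 1) →₀ R))
    (q : ℕ) (z : X q →₀ R) (hz : IsCyc d q z) :
    IsCyc d q (phiP d s q z) ∧ ∃ y, d q y = z - phiP d s q z := by
  cases q with
  | zero =>
    refine ⟨trivial, s 0 z, ?_⟩
    simp [phiP]
  | succ q =>
    have hz' : d q z = 0 := hz
    have e : phiP d s (q + 1) z = z - d (q + 1) (s (q + 1) z) := by
      simp [phiP, hz']
    refine ⟨?_, s (q + 1) z, ?_⟩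
    · show d q (phiP d s (q + 1) z) = 0
      rw [e, map_sub, hz', hd, sub_zero]
    · rw [e]
      abel

lemma phiP_iter {d : Dif R X} (hd : IsCx d) (s : ∀ q : ℕ, (X q →₀ R) →ₗ[R] (X (q + 1) →₀ R))
    (q : ℕ) (z : X q →₀ R) (hz : IsCyc d q z) (n : ℕ) :
    IsCyc d q ((phiP d s q)^[n] z) ∧ ∃ y, d q y = z - (phiP d s q)^[n] z := by
  induction n with
  | zero => exact ⟨by simpa using hz, 0, by simp⟩
  | succ n ih =>
    obtain ⟨h1, y, hy⟩ := ih
    obtain ⟨h2, y', hy'⟩ := phiP_cyc hd s q _ h1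
    rw [Function.iterate_succ_apply']
    refine ⟨h2, y + y', ?_⟩
    rw [map_add, hy, hy']
    abel

lemma bc_phiP {Λ : Type} [Ring Λ] (θ : Λ →+* R) {X : ℕ → Type} (d : Dif Λ X)
    (s : ∀ q : ℕ, (X q →₀ Λ) →ₗ[Λ] (X (q + 1) →₀ Λ)) (q : ℕ) :
    bc θ (phiP d s q) = phiP (bcD θ d) (fun q => bc θ (s q)) q := by
  cases q with
  | zero => simp only [phiP, bc_sub, bc_id, bc_comp, bcD]
  | succ q => simp only [phiP, bc_sub, bc_id, bc_comp, bcD]

end cyc

/-- the action of `R` on `R[Q]^(X)` -/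
lemma r_smul {R Q Y : Type} [Ring R] [Group Q] (r : R) (v : Y →₀ MonoidAlgebra R Q) :
    r • v = (MonoidAlgebra.single (1 : Q) r) • v := by
  ext y m
  rw [Finsupp.smul_apply, Finsupp.smul_apply, smul_eq_mul, MonoidAlgebra.coeff_single_one_mul,
    MonoidAlgebra.coeff_smul_apply, smul_eq_mul]

/-! ## The induction step -/

/-- the quotient `Z / B` -/
abbrev QH {R M : Type} [Ring R] [AddCommGroup M] [Module R M] (Z B : Submodule R M) : Type :=
  ↥Z ⧸ (B.comap Z.subtype)

section qh

variable {R M : Type} [Ring R] [AddCommGroup M] [Module R M] (Z B : Submodule R M)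

/-- the class of a cycle -/
noncomputable def cls (z : M) (hz : z ∈ Z) : QH Z B := Submodule.Quotient.mk ⟨z, hz⟩

lemma cls_eq (z z' : M) (hz : z ∈ Z) (hz' : z' ∈ Z) (h : z - z' ∈ B) :
    cls Z B z hz = cls Z B z' hz' := by
  rw [cls, cls, Submodule.Quotient.eq]
  exact h

lemma of_cls_eq_zero (z : M) (hz : z ∈ Z) (h : cls Z B z hz = 0) : z ∈ B := by
  rw [cls, Submodule.Quotient.mk_eq_zero] at h
  exact h

lemma cls_sum {ι : Type} [Fintype ι] (c : ι → R) (v : ι → M) (hv : ∀ i, v i ∈ Z) (z : M)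
    (hz : z ∈ Z) (h : z = ∑ i, c i • v i) :
    cls Z B z hz = ∑ i, c i • cls Z B (v i) (hv i) := by
  have : (⟨z, hz⟩ : Z) = ∑ i, c i • (⟨v i, hv i⟩ : Z) := by
    apply Subtype.ext
    rw [Submodule.coe_sum]
    exact h
  rw [cls, this]
  rw [← Submodule.mkQ_apply, map_sum]
  rfl

lemma exists_cls (h : QH Z B) : ∃ z hz, h = cls Z B z hz := by
  obtain ⟨⟨z, hz⟩, rfl⟩ := Submodule.Quotient.mk_surjective _ h
  exact ⟨z, hz, rfl⟩

end qh

theorem step (hemialg : HemiAlgStatement) (transfer : TransferStatement)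
    (hsplit : SplitStatement)
    (k S S' : Type) [CommRing k] [Group S] [Group S'] (j : S →* S')
    (ψ : S' →* Multiplicative ℤ) (hses : SES j ψ) (χ : Chr S') (F : GRes k S) (F' : GRes k S')
    (q : ℕ) (hF : Finite (F.X q)) (hF' : Finite (F'.X q)) (N : NovRing k S' χ)
    (hpush : ∀ lam : ℝ, ∃ s : ∀ q : ℕ, (F'.X q →₀ MonoidAlgebra k S') →ₗ[MonoidAlgebra k S']
      (F'.X (q + 1) →₀ MonoidAlgebra k S'),
      ∀ x, PosV (χ + lam • intChr ψ) (phiP F'.d s q (single x 1)))
    (hE : ExactLT (bcD (N.ι.comp (gmap k j)) F.d) q)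
    (hD : ExactLT (bcD (delta N.ι ψ) F'.d) q) :
    ExactAt (bcD (delta N.ι ψ) F'.d) q := by
  classical
  haveI := Fintype.ofFinite (F.X q)
  haveI := Fintype.ofFinite (F'.X q)
  obtain ⟨al, be, -, -, hal, hbe, hz, -⟩ := transfer k S S' (Multiplicative ℤ) N.R j ψ hses N.ι F F'
  set E := bcD (N.ι.comp (gmap k j)) F.d with hEdef
  set D := bcD (delta N.ι ψ) F'.d with hDdef
  have hEcx : IsCx E := bcD_isCx _ F.isCx
  have hDcx : IsCx D := bcD_isCx _ F'.isCx
  obtain ⟨σE, hσE⟩ := (hsplit N.R F.X E q hEcx).1 hE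
  obtain ⟨σD, hσD⟩ := (hsplit _ F'.X D q hDcx).1 hD
  -- the chain maps preserve cycles
  have hal' : ∀ z, IsCyc E q z → IsCyc D q
      (Finsupp.linearCombination N.R (fun y => mp (delta N.ι ψ) (al q y)) z) := by
    intro z hz
    cases q with
    | zero => trivial
    | succ q =>
      show D q _ = 0
      rw [hal q z]
      have : E q z = 0 := hz
      rw [this, map_zero]
  have hbe' : ∀ z, IsCyc D q z → IsCyc E q (be q z) := by
    intro z hz
    cases q with
    | zero => trivial
    | succ q =>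
      show E q _ = 0
      rw [hbe q z]
      have : D q z = 0 := hz
      rw [this, map_zero]
  -- generators
  let e' : F'.X q → (F'.X q →₀ MonoidAlgebra N.R (Multiplicative ℤ)) := fun x =>
    piC D σD q (single x 1)
  have he' : ∀ x, IsCyc D q (e' x) := fun x => piC_cyc hDcx hσD _
  let y' : F.X q → (F'.X q →₀ MonoidAlgebra N.R (Multiplicative ℤ)) := fun w =>
    Finsupp.linearCombination N.R (fun y => mp (delta N.ι ψ) (al q y)) (piC E σE q (single w 1))
  have hy' : ∀ w, IsCyc D q (y' w) := fun w => hal' _ (piC_cyc hEcx hσE _)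
  -- expansion of cycles of D in terms of e'
  have hexp : ∀ z, IsCyc D q z → z = ∑ x, z x • e' x := by
    intro z hz
    conv_lhs => rw [← piC_of_cyc D σD q z hz, ← Finsupp.univ_sum_single z, map_sum]
    refine Finset.sum_congr rfl fun x _ => ?_
    show piC D σD q (single x (z x)) = z x • piC D σD q (single x 1)
    rw [← map_smul, Finsupp.smul_single, smul_eq_mul, mul_one]
  set Z := Zs D q with hZ
  have hmZ : ∀ z, z ∈ Z ↔ IsCyc D q z := mem_Zs D q
  set B : Submodule (MonoidAlgebra N.R (Multiplicative ℤ))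
    (F'.X q →₀ MonoidAlgebra N.R (Multiplicative ℤ)) := LinearMap.range (D q) with hB
  have hmB : ∀ z, z ∈ B ↔ ∃ y, D q y = z := fun z => Iff.rfl
  have heZ : ∀ x, e' x ∈ Z := fun x => (hmZ _).2 (he' x)
  have hyZ : ∀ x, y' x ∈ Z := fun x => (hmZ _).2 (hy' x)
  have hcls : ∀ z (hz : z ∈ Z), cls Z B z hz = ∑ x, z x • cls Z B (e' x) (heZ x) :=
    fun z hz => cls_sum Z B _ _ heZ z hz (hexp z ((hmZ z).1 hz))
  have hH : ∀ h : QH Z B, h = 0 := by
    refine hemialg k S' χ N (QH Z B) (F.X q) (F'.X q) (fun w => cls Z B (y' w) (hyZ w))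
      (fun x => cls Z B (e' x) (heZ x)) ?_ ?_ ?_
    · intro h
      obtain ⟨z, hzZ, rfl⟩ := exists_cls Z B h
      have hz' := (hmZ z).1 hzZ
      refine ⟨fun w => be q z w, ?_⟩
      rw [cls_eq Z B z _ hzZ ((hmZ _).2 (hal' _ (hbe' z hz'))) (hz q z hz')]
      refine cls_sum Z B (fun w => MonoidAlgebra.single (1 : Multiplicative ℤ) (be q z w)) _ hyZ _ _ ?_
      have e1 : be q z = ∑ w, (be q z w) • piC E σE q (single w 1) := by
        conv_lhs => rw [← piC_of_cyc E σE q _ (hbe' z hz'), ← Finsupp.univ_sum_single (be q z),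
          map_sum]
        refine Finset.sum_congr rfl fun x _ => ?_
        rw [← map_smul, Finsupp.smul_single, smul_eq_mul, mul_one]
      conv_lhs => rw [e1, map_sum]
      refine Finset.sum_congr rfl fun x _ => ?_
      rw [map_smul, r_smul]
    · intro h
      obtain ⟨z, hz', rfl⟩ := exists_cls Z B h
      exact ⟨fun x => z x, hcls z hz'⟩
    · intro lam C
      obtain ⟨s, hs⟩ := hpush lam
      obtain ⟨δ, hδ, hd⟩ := exists_delta (χ + lam • intChr ψ)
        (fun x => phiP F'.d s q (single x 1)) hs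
      -- a common lower bound
      have hbd : ∃ a, ∀ x, VV N lam a (e' x) := by
        have : ∀ x, ∃ a, VV N lam a (e' x) := fun x => VV_bdd N _
        choose a ha using this
        have key : ∀ t : Finset (F'.X q), ∃ b : ℝ, ∀ x ∈ t, b ≤ a x := by
          intro t
          induction t using Finset.induction_on with
          | empty => exact ⟨0, by simp⟩
          | insert x t _ ih =>
            obtain ⟨b, hb⟩ := ih
            refine ⟨min b (a x), fun x' hx' => ?_⟩
            rcases Finset.mem_insert.1 hx' with rfl | hx'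
            · exact min_le_right _ _
            · exact (min_le_left _ _).trans (hb x' hx')
        obtain ⟨b, hb⟩ := key Finset.univ
        exact ⟨b, fun x y => VG_mono N (hb x (Finset.mem_univ _)) (ha x y)⟩
      obtain ⟨a, ha⟩ := hbd
      obtain ⟨n, hn⟩ := exists_nat_gt ((C - a) / δ)
      have hn' : C ≤ a + n * δ := by
        rw [div_lt_iff₀ hδ] at hn
        linarith
      refine ⟨fun x x' => (bc (delta N.ι ψ) (phiP F'.d s q))^[n] (e' x) x', fun x x' =>
        VG_mono N hn' (VV_iter N ψ _ hd (ha x) n x'), fun x => ?_⟩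
      rw [bc_phiP]
      obtain ⟨h1, h2⟩ := phiP_iter hDcx (fun q => bc (delta N.ι ψ) (s q)) q (e' x) (he' x) n
      rw [cls_eq Z B (e' x) _ (heZ x) ((hmZ _).2 h1) h2]
      exact hcls _ ((hmZ _).2 h1)
  intro z hz'
  exact of_cls_eq_zero Z B z ((hmZ z).2 hz') (hH _)

theorem hemi (hemialg : HemiAlgStatement) (transfer : TransferStatement) (haug : AugStatement)
    (hsplit : SplitStatement) (hrseq : RseqStatement) (hn2 : N2Statement) : HemiStatement := by
  intro k S S' _ _ _ j ψ hses χ n F F' hF hF' hpush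
  obtain ⟨N, hN⟩ := hrseq k S' χ
  refine hn2 k S' χ N hN S j hses.inj n F hF ?_
  have haug' := fun m => (haug k S S' (Multiplicative ℤ) N.R j ψ hses N.ι F F' m).1
  have key : ∀ q, q ≤ n + 1 → ExactLT (bcD (N.ι.comp (gmap k j)) F.d) q := by
    intro q
    induction q with
    | zero => intro _ q hq; omega
    | succ q ih =>
      intro hq
      have hE := ih (by omega)
      have hD := (haug' q).1 hE
      rw [haug' (q + 1)]
      have hst := step hemialg transfer hsplit k S S' j ψ hses χ F F' q (hF q (by omega))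
        (hF' q (by omega)) N ?_ hE hD
      · intro q' hq'
        rcases Nat.lt_succ_iff_lt_or_eq.1 hq' with h | rfl
        · exact hD q' h
        · exact hst
      · intro lam
        obtain ⟨s, h0, h1⟩ := hpush lam
        refine ⟨s, fun x => ?_⟩
        cases q with
        | zero => simpa [phiP] using h0 x
        | succ q => simpa [phiP] using h1 q (by omega) x
  exact key (n + 1) le_rfl

end Pool.Agent.Lib.MP_b1a3a4_al.MVS.H32
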